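import Mathlib
import Pool.Agent.H66.BPMain

/-!
Under the continuum hypothesis there is a set of reals in `S₁(B_Ω, B_Γ)` (hence in all three
classes `S₁(B_Ω, B_Γ)`, `S₁(B_Ω, B_Ω)`, `S_fin(B_Ω, B_Ω)`) whose square is in none of them.
So none of the three classes is closed under finite powers provably in ZFC.
-/

open Set Filter Topology

universe u

namespace Pool.Agent.Results.MP_d59834_gt.SquareFailure

/-- `𝒰` is a cover of `X`: its union is `X` and `X` is not a member. -/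
def IsCover {X : Type u} (𝒰 : Set (Set X)) : Prop := ⋃₀ 𝒰 = univ ∧ univ ∉ 𝒰

/-- Countable Borel covers. -/
def BCov (X : Type u) [TopologicalSpace X] : Set (Set (Set X)) :=
  {𝒰 | 𝒰.Countable ∧ (∀ U ∈ 𝒰, @MeasurableSet X (borel X) U) ∧ IsCover 𝒰}

/-- Countable Borel `ω`-covers. -/
def BOmega (X : Type u) [TopologicalSpace X] : Set (Set (Set X)) :=
  {𝒰 | 𝒰 ∈ BCov X ∧ ∀ F : Finset X, ∃ U ∈ 𝒰, (F : Set X) ⊆ U}

/-- Countable Borel `γ`-covers. -/
def BGamma (X : Type u) [TopologicalSpace X] : Set (Set (Set X)) :=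
  {𝒰 | 𝒰 ∈ BCov X ∧ 𝒰.Infinite ∧ ∀ x : X, {U ∈ 𝒰 | x ∉ U}.Finite}

/-- The selection principle `S₁(𝔄, 𝔅)` for `X`. -/
def S1 (𝔄 𝔅 : ∀ (X : Type u) [TopologicalSpace X], Set (Set (Set X)))
    (X : Type u) [TopologicalSpace X] : Prop :=
  ∀ 𝒰 : ℕ → Set (Set X), (∀ n, 𝒰 n ∈ 𝔄 X) →
    ∃ U : ℕ → Set X, (∀ n, U n ∈ 𝒰 n) ∧ Set.range U ∈ 𝔅 X

/-- The selection principle `S_fin(𝔄, 𝔅)` for `X`. -/
def Sfin (𝔄 𝔅 : ∀ (X : Type u) [TopologicalSpace X], Set (Set (Set X)))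
    (X : Type u) [TopologicalSpace X] : Prop :=
  ∀ 𝒰 : ℕ → Set (Set X), (∀ n, 𝒰 n ∈ 𝔄 X) →
    ∃ F : ℕ → Set (Set X), (∀ n, F n ⊆ 𝒰 n ∧ (F n).Finite) ∧ (⋃ n, F n) ∈ 𝔅 X

lemma gamma_sub_omega {X : Type u} [TopologicalSpace X] {𝒰 : Set (Set X)}
    (h : 𝒰 ∈ BGamma X) : 𝒰 ∈ BOmega X := by
  classical
  obtain ⟨h1, h2, h3⟩ := h
  refine ⟨h1, fun F ↦ ?_⟩
  by_contra hcon
  push Not at hcon
  have h4 : 𝒰 ⊆ ⋃ x ∈ F, {U ∈ 𝒰 | x ∉ U} := by
    intro U hU
    obtain ⟨x, hx, hxU⟩ := Set.not_subset.1 (hcon U hU)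
    exact mem_biUnion (Finset.mem_coe.1 hx) ⟨hU, hxU⟩
  exact h2 ((F.finite_toSet.biUnion fun x _ ↦ h3 x).subset h4)

lemma s1_mono {X : Type u} [TopologicalSpace X] (h : S1 BOmega BGamma X) :
    S1 BOmega BOmega X := by
  intro 𝒰 h𝒰
  obtain ⟨U, hU, hU'⟩ := h 𝒰 h𝒰
  exact ⟨U, hU, gamma_sub_omega hU'⟩

lemma s1_sfin {X : Type u} [TopologicalSpace X] (h : S1 BOmega BOmega X) :
    Sfin BOmega BOmega X := by
  intro 𝒰 h𝒰
  obtain ⟨U, hU, hU'⟩ := h 𝒰 h𝒰
  refine ⟨fun n ↦ {U n}, fun n ↦ ⟨singleton_subset_iff.2 (hU n), finite_singleton _⟩, ?_⟩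
  rwa [iUnion_singleton_eq_range]

open Pool.Agent.H66.BP

lemma s1_of_key (X : Set (ℕ → Bool))
    (hX : ∀ U : ℕ → ℕ → Set Pt, (∀ n m, MeasurableSet (U n m)) →
      (∀ n, ∀ F : Finset Pt, ↑F ⊆ X → ∃ m, ↑F ⊆ U n m) →
      ∃ m : ℕ → ℕ, ∀ x ∈ X, ∀ᶠ n in atTop, x ∈ U n (m n)) :
    S1 BOmega BGamma X := by
  classical
  intro 𝒰 h𝒰
  -- enumerate the covers by Borel sets of the Cantor space
  have hex : ∀ n, ∃ B : ℕ → Set Pt, (∀ m, MeasurableSet (B m)) ∧
      Set.range (fun m ↦ (Subtype.val ⁻¹' B m : Set X)) = 𝒰 n := by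
    intro n
    obtain ⟨⟨hc, hB, -⟩, hω⟩ := h𝒰 n
    obtain ⟨U0, hU0, -⟩ := hω ∅
    obtain ⟨e, he⟩ := hc.exists_eq_range ⟨U0, hU0⟩
    have hB' : ∀ m, ∃ B : Set Pt, MeasurableSet B ∧ Subtype.val ⁻¹' B = e m := by
      intro m
      have h1 := hB (e m) (by rw [he]; exact mem_range_self m)
      have h2 : borel X = MeasurableSpace.comap Subtype.val (borel Pt) := borel_comap
      rw [h2] at h1
      obtain ⟨B, hB1, hB2⟩ := h1
      refine ⟨B, ?_, hB2⟩
      rw [← BorelSpace.measurable_eq (α := Pt)] at hB1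
      exact hB1
    choose B hB1 hB2 using hB'
    refine ⟨B, hB1, ?_⟩
    rw [he]
    congr 1
    funext m
    exact hB2 m
  choose B hB1 hB2 using hex
  obtain ⟨m, hm⟩ := hX B hB1 (by
    intro n F hF
    obtain ⟨-, hω⟩ := h𝒰 n
    obtain ⟨U, hU, hFU⟩ := hω (F.subtype (· ∈ X))
    rw [← hB2 n] at hU
    obtain ⟨m, rfl⟩ := hU
    refine ⟨m, fun x hx ↦ ?_⟩
    have h1 : (⟨x, hF hx⟩ : X) ∈ (F.subtype (· ∈ X) : Finset X) := by
      rw [Finset.mem_subtype]
      exact hx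
    exact hFU (Finset.mem_coe.2 h1))
  have hmem : ∀ n, (Subtype.val ⁻¹' B n (m n) : Set X) ∈ 𝒰 n := by
    intro n
    rw [← hB2 n]
    exact mem_range_self _
  have hev : ∀ x : X, ∀ᶠ n in atTop, x ∈ (Subtype.val ⁻¹' B n (m n) : Set X) := fun x ↦
    hm x.1 x.2
  refine ⟨fun n ↦ Subtype.val ⁻¹' B n (m n), hmem, ⟨countable_range _, ?_, ?_, ?_⟩, ?_, ?_⟩
  · rintro _ ⟨n, rfl⟩
    exact (h𝒰 n).1.2.1 _ (hmem n)
  · rw [eq_univ_iff_forall]
    intro x
    obtain ⟨n, hn⟩ := (hev x).exists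
    exact ⟨_, mem_range_self n, hn⟩
  · rintro ⟨n, hn⟩
    have h1 := hmem n
    have h2 : (Subtype.val ⁻¹' B n (m n) : Set X) = univ := hn
    rw [h2] at h1
    exact (h𝒰 n).1.2.2.2 h1
  · -- the range is infinite
    intro hfin
    have h1 : ∃ V : Set X, ∃ᶠ n in atTop, (Subtype.val ⁻¹' B n (m n) : Set X) = V := by
      by_contra hcon
      push Not at hcon
      have h2 : ∀ᶠ n in atTop, ∀ V ∈ hfin.toFinset,
          (Subtype.val ⁻¹' B n (m n) : Set X) ≠ V := by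
        rw [Filter.eventually_all_finset]
        intro V _
        exact hcon V
      obtain ⟨n, hn⟩ := h2.exists
      exact hn _ (hfin.mem_toFinset.2 (mem_range_self n)) rfl
    obtain ⟨V, hV⟩ := h1
    have h3 : V = univ := by
      rw [eq_univ_iff_forall]
      intro x
      obtain ⟨n, hn, hn'⟩ := (hV.and_eventually (hev x)).exists
      rw [← hn]
      exact hn'
    obtain ⟨n, hn⟩ := hV.exists
    have h4 := hmem n
    rw [hn, h3] at h4
    exact (h𝒰 n).1.2.2.2 h4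
  · intro x
    obtain ⟨N, hN⟩ := eventually_atTop.1 (hev x)
    refine ((Set.finite_lt_nat N).image
      (fun n ↦ (Subtype.val ⁻¹' B n (m n) : Set X))).subset ?_
    rintro _ ⟨⟨n, rfl⟩, hn⟩
    refine mem_image_of_mem _ ?_
    by_contra h
    exact hn (hN n (not_lt.1 h))

lemma not_sfin_of_key (X : Set (ℕ → Bool))
    (hX : ∀ g : ℕ → ℕ, ∃ x ∈ X, ∃ y ∈ X, ¬ E0 x y ∧
      ∀ n, ((Finset.range (g n)).filter (fun k ↦ x k ≠ y k)).card ≤ n) :
    ¬ Sfin BOmega BOmega (Fin 2 → X) := by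
  classical
  intro h
  -- the number of differences below `m`
  let d : ℕ → (Fin 2 → X) → ℕ := fun m p ↦
    ((Finset.range m).filter (fun k ↦ (p 0).1 k ≠ (p 1).1 k)).card
  let V : ℕ → ℕ → Set (Fin 2 → X) := fun n m ↦ {p | E0 (p 0).1 (p 1).1 ∨ n < d m p}
  have hdmono : ∀ p, Monotone (fun m ↦ d m p) := by
    intro p m m' hmm
    exact Finset.card_le_card (Finset.filter_subset_filter _ (Finset.range_subset_range.2 hmm))
  have hVmono : ∀ n, Monotone (V n) := by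
    rintro n m m' hmm p (hp | hp)
    · exact Or.inl hp
    · exact Or.inr (lt_of_lt_of_le hp (hdmono p hmm))
  have hun : ∀ (n : ℕ) p, ¬ E0 (p 0).1 (p 1).1 → ∃ m, n < d m p := by
    intro n p hp
    have h1 : {k | (p 0).1 k ≠ (p 1).1 k}.Infinite := by
      intro hfin
      apply hp
      have h2 := hfin.eventually_cofinite_notMem
      rw [Nat.cofinite_eq_atTop] at h2
      filter_upwards [h2] with k hk
      by_contra hne
      exact hk hne
    obtain ⟨t, ht, htc⟩ := h1.exists_subset_card_eq (n + 1)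
    refine ⟨t.sup id + 1, ?_⟩
    have h3 : t ⊆ (Finset.range (t.sup id + 1)).filter (fun k ↦ (p 0).1 k ≠ (p 1).1 k) := by
      intro k hk
      have h4 : k ≤ t.sup id := Finset.le_sup (f := id) hk
      rw [Finset.mem_filter, Finset.mem_range]
      exact ⟨by omega, ht hk⟩
    have h5 := Finset.card_le_card h3
    change n < Finset.card _
    omega
  have hV : ∀ n, Set.range (V n) ∈ BOmega (Fin 2 → X) := by
    intro n
    have hmeas : ∀ m, @MeasurableSet _ (borel (Fin 2 → X)) (V n m) := by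
      intro m
      borelize (Fin 2 → X)
      have hc : ∀ (i : Fin 2) (k : ℕ), Continuous (fun p : Fin 2 → X ↦ (p i).1 k) := by
        intro i k
        exact (continuous_apply (A := fun _ ↦ Bool) k).comp
          (continuous_subtype_val.comp (continuous_apply i))
      have hk : ∀ k : ℕ, MeasurableSet {p : Fin 2 → X | (p 0).1 k = (p 1).1 k} := by
        intro k
        exact (isClosed_eq (hc 0 k) (hc 1 k)).measurableSet
      have h1 : MeasurableSet {p : Fin 2 → X | E0 (p 0).1 (p 1).1} := by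
        have : {p : Fin 2 → X | E0 (p 0).1 (p 1).1} =
            ⋃ a : ℕ, ⋂ k : ℕ, {p | a ≤ k → (p 0).1 k = (p 1).1 k} := by
          ext p
          simp only [mem_iUnion, mem_iInter]
          exact eventually_atTop
        rw [this]
        refine MeasurableSet.iUnion fun a ↦ MeasurableSet.iInter fun k ↦ ?_
        by_cases hak : a ≤ k
        · simpa [hak] using hk k
        · simp [hak]
      have h2 : MeasurableSet {p : Fin 2 → X | n < d m p} := by
        have : {p : Fin 2 → X | n < d m p} =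
            ⋃ t ∈ (Finset.range m).powerset.filter (fun t ↦ n < t.card),
              ⋂ k ∈ t, {p : Fin 2 → X | (p 0).1 k = (p 1).1 k}ᶜ := by
          ext p
          simp only [mem_iUnion, mem_iInter, Finset.mem_filter, Finset.mem_powerset,
            exists_prop]
          constructor
          · intro hp
            refine ⟨(Finset.range m).filter (fun k ↦ (p 0).1 k ≠ (p 1).1 k),
              ⟨Finset.filter_subset _ _, hp⟩, fun k hk ↦ ?_⟩
            exact (Finset.mem_filter.1 hk).2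
          · rintro ⟨t, ⟨ht1, ht2⟩, ht3⟩
            refine lt_of_lt_of_le ht2 (Finset.card_le_card fun k hk ↦ ?_)
            rw [Finset.mem_filter]
            exact ⟨ht1 hk, ht3 k hk⟩
        rw [this]
        refine Finset.measurableSet_biUnion _ fun t _ ↦
          Finset.measurableSet_biInter _ fun k _ ↦ (hk k).compl
      exact h1.union h2
    have hω : ∀ F : Finset (Fin 2 → X), ∃ U ∈ Set.range (V n), (F : Set (Fin 2 → X)) ⊆ U := by
      intro F
      have hex : ∀ p : Fin 2 → X, ∃ m, p ∈ V n m := by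
        intro p
        by_cases hp : E0 (p 0).1 (p 1).1
        · exact ⟨0, Or.inl hp⟩
        · obtain ⟨m, hm⟩ := hun n p hp
          exact ⟨m, Or.inr hm⟩
      choose mm hmm using hex
      refine ⟨V n (F.sup mm), mem_range_self _, fun p hp ↦ ?_⟩
      exact hVmono n (Finset.le_sup (Finset.mem_coe.1 hp)) (hmm p)
    refine ⟨⟨countable_range _, ?_, ?_, ?_⟩, hω⟩
    · rintro _ ⟨m, rfl⟩
      exact hmeas m
    · rw [eq_univ_iff_forall]
      intro p
      obtain ⟨U, hU, hpU⟩ := hω {p}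
      exact ⟨U, hU, hpU (by simp)⟩
    · rintro ⟨m, hm⟩
      obtain ⟨x, hx, y, hy, hxy, hd⟩ := hX (fun _ ↦ m)
      have h1 : (![⟨x, hx⟩, ⟨y, hy⟩] : Fin 2 → X) ∈ V n m := by rw [hm]; trivial
      rcases h1 with h1 | h1
      · exact hxy h1
      · have h2 : d m (![⟨x, hx⟩, ⟨y, hy⟩] : Fin 2 → X) ≤ n := hd n
        omega
  obtain ⟨F, hF, hcov⟩ := h (fun n ↦ Set.range (V n)) hV
  -- bound the finitely many chosen indices
  have hg : ∀ n, ∃ m, ∀ U ∈ F n, U ⊆ V n m := by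
    intro n
    obtain ⟨hF1, hF2⟩ := hF n
    have hsel : ∀ U : Set (Fin 2 → X), U ∈ F n → ∃ m, V n m = U := fun U hU ↦ hF1 hU
    choose! mm hmm using hsel
    refine ⟨hF2.toFinset.sup mm, fun U hU ↦ ?_⟩
    have h1 : V n (mm U) ≤ V n (hF2.toFinset.sup mm) :=
      hVmono n (Finset.le_sup (hF2.mem_toFinset.2 hU))
    rw [hmm U hU] at h1
    exact h1
  choose g hg using hg
  obtain ⟨x, hx, y, hy, hxy, hd⟩ := hX g
  have h1 := hcov.1.2.2.1
  have h2 : (![⟨x, hx⟩, ⟨y, hy⟩] : Fin 2 → X) ∈ ⋃₀ (⋃ n, F n) := by rw [h1]; trivial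
  obtain ⟨U, hU, hpU⟩ := h2
  obtain ⟨n, hn⟩ := mem_iUnion.1 hU
  rcases hg n U hn hpU with h3 | h3
  · exact hxy h3
  · have h4 : d (g n) (![⟨x, hx⟩, ⟨y, hy⟩] : Fin 2 → X) ≤ n := hd n
    omega

/-- Under CH some set of reals lies in all three classes while its square lies in none. -/
theorem result (hCH : Cardinal.continuum.{0} = Cardinal.aleph 1) :
    ∃ X : Set (ℕ → Bool),
      (S1 BOmega BGamma X ∧ S1 BOmega BOmega X ∧ Sfin BOmega BOmega X) ∧
      (¬ S1 BOmega BGamma (Fin 2 → X) ∧ ¬ S1 BOmega BOmega (Fin 2 → X) ∧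
        ¬ Sfin BOmega BOmega (Fin 2 → X)) := by
  obtain ⟨X, hX1, hX2⟩ := exists_set hCH
  have h1 := s1_of_key X hX1
  have h2 := not_sfin_of_key X hX2
  exact ⟨X, ⟨h1, s1_mono h1, s1_sfin (s1_mono h1)⟩,
    fun h ↦ h2 (s1_sfin (s1_mono h)), fun h ↦ h2 (s1_sfin h), h2⟩

end Pool.Agent.Results.MP_d59834_gt.SquareFailure
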